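import Mathlib

set_option autoImplicit false

namespace Pool.Agent.Results.MP_15b8d6_gt.Reconstructible

open Metric Set Filter Topology

/-- `m(a)`: the points of `X` nearest to `a`. -/
def near {n : ℕ} (X : Set (EuclideanSpace ℝ (Fin n))) (a : EuclideanSpace ℝ (Fin n)) :
    Set (EuclideanSpace ℝ (Fin n)) := {x | x ∈ X ∧ dist a x = infDist a X}

/-- The `l`-medial axis. -/
def medial {n : ℕ} (X : Set (EuclideanSpace ℝ (Fin n))) (l : ℝ) :
    Set (EuclideanSpace ℝ (Fin n)) :=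
  {a | (near X a).Nontrivial ∧ ¬ ∃ c, near X a ⊆ closedBall c l}

section
variable {n : ℕ} {X : Set (EuclideanSpace ℝ (Fin n))} {p : EuclideanSpace ℝ (Fin n)}

lemma bound (hp : p ∈ convexHull ℝ X) :
    ∃ C : ℝ, ∀ a, infDist a X ^ 2 - ‖a - p‖ ^ 2 ≤ C := by
  have key : ∀ q ∈ convexHull ℝ X, ∃ C : ℝ, ∀ a,
      infDist a X ^ 2 - ‖a‖ ^ 2 + 2 * inner ℝ a q ≤ C := by
    intro q hq
    refine convexHull_min (t := {q | ∃ C : ℝ, ∀ a,
      infDist a X ^ 2 - ‖a‖ ^ 2 + 2 * inner ℝ a q ≤ C}) ?_ ?_ hq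
    · intro x hx
      refine ⟨‖x‖ ^ 2, fun a => ?_⟩
      have h1 : infDist a X ≤ ‖a - x‖ := by rw [← dist_eq_norm]; exact infDist_le_dist_of_mem hx
      have h2 : infDist a X ^ 2 ≤ ‖a - x‖ ^ 2 := pow_le_pow_left₀ infDist_nonneg h1 2
      rw [norm_sub_sq_real] at h2
      linarith
    · rintro x ⟨C, hC⟩ y ⟨D, hD⟩ s t hs ht hst
      refine ⟨s * C + t * D, fun a => ?_⟩
      rw [inner_add_right, inner_smul_right, inner_smul_right]
      have := mul_le_mul_of_nonneg_left (hC a) hs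
      have := mul_le_mul_of_nonneg_left (hD a) ht
      have e : infDist a X ^ 2 - ‖a‖ ^ 2 = (s + t) * (infDist a X ^ 2 - ‖a‖ ^ 2) := by
        rw [hst, one_mul]
      rw [e]; nlinarith
  obtain ⟨C, hC⟩ := key p hp
  refine ⟨C, fun a => ?_⟩
  have := hC a
  rw [norm_sub_sq_real]
  nlinarith [sq_nonneg ‖p‖]

lemma exists_max {C : ℝ} (hC : ∀ a, infDist a X ^ 2 - ‖a - p‖ ^ 2 ≤ C) {e : ℝ} (he : 0 < e) :
    ∃ a, ∀ b, infDist b X ^ 2 - (1 + e) * ‖b - p‖ ^ 2 ≤
      infDist a X ^ 2 - (1 + e) * ‖a - p‖ ^ 2 := by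
  have hcont : Continuous fun b => infDist b X ^ 2 - (1 + e) * ‖b - p‖ ^ 2 := by
    have := continuous_infDist_pt X
    fun_prop
  set R : ℝ := |C| / e + 1 with hR
  have hR1 : 1 ≤ R := by have : 0 ≤ |C| / e := by positivity
                         linarith
  obtain ⟨a, -, ha⟩ := (isCompact_closedBall p R).exists_isMaxOn
    ⟨p, mem_closedBall_self (by linarith)⟩ hcont.continuousOn
  refine ⟨a, fun b => ?_⟩
  by_cases hb : b ∈ closedBall p R
  · exact ha hb
  · have h0 : infDist p X ^ 2 - (1 + e) * ‖p - p‖ ^ 2 ≤ _ :=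
      ha (mem_closedBall_self (by linarith))
    rw [mem_closedBall, dist_eq_norm, not_le] at hb
    have h1 := hC b
    have h2 : e * R = |C| + e := by rw [hR]; field_simp
    have h3 : R ≤ ‖b - p‖ ^ 2 := by nlinarith
    have h4 := le_abs_self C
    simp only [sub_self, norm_zero] at h0
    nlinarith [sq_nonneg (infDist p X)]

lemma first_order (hX : IsClosed X) (hne : X.Nonempty) {e : ℝ} (he : 0 < e)
    {a : EuclideanSpace ℝ (Fin n)}
    (ha : ∀ b, infDist b X ^ 2 - (1 + e) * ‖b - p‖ ^ 2 ≤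
      infDist a X ^ 2 - (1 + e) * ‖a - p‖ ^ 2) (v : EuclideanSpace ℝ (Fin n)) :
    ∃ x ∈ near X a, inner ℝ v (a - x) ≤ (1 + e) * inner ℝ v (a - p) := by
  let t : ℕ → ℝ := fun k => 1 / ((k : ℝ) + 1)
  have ht : Tendsto t atTop (𝓝 0) := tendsto_one_div_add_atTop_nhds_zero_nat
  have htp : ∀ k, 0 < t k := fun k => by positivity
  have ht1 : ∀ k, t k ≤ 1 := fun k => by
    simp only [t]; rw [div_le_one (by positivity)]; linarith [(Nat.cast_nonneg k : (0 : ℝ) ≤ k)]
  choose x hxX hx using fun k => hX.exists_infDist_eq_dist hne (a + t k • v)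
  have hb : Tendsto (fun k => a + t k • v) atTop (𝓝 a) := by
    simpa using (ht.smul_const v).const_add a
  have hmem : ∀ k, x k ∈ closedBall a (infDist a X + 2 * ‖v‖) := by
    intro k
    have h1 : dist (a + t k • v) a ≤ ‖v‖ := by
      rw [dist_eq_norm, add_sub_cancel_left, norm_smul, Real.norm_of_nonneg (htp k).le]
      nlinarith [ht1 k, norm_nonneg v]
    have h2 := infDist_le_infDist_add_dist (x := a + t k • v) (y := a) (s := X)
    have h3 := dist_triangle (x k) (a + t k • v) a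
    rw [mem_closedBall]
    rw [dist_comm (x k) (a + t k • v), ← hx k] at h3
    linarith
  obtain ⟨y, -, φ, hφ, hy⟩ := (isCompact_closedBall a _).tendsto_subseq hmem
  have hb' := hb.comp hφ.tendsto_atTop
  refine ⟨y, ⟨hX.mem_of_tendsto hy (Eventually.of_forall fun k => hxX _), ?_⟩, ?_⟩
  · have h1 := hb'.dist hy
    have h2 := ((continuous_infDist_pt X).tendsto a).comp hb'
    refine tendsto_nhds_unique h1 (h2.congr fun k => ?_)
    simp only [Function.comp]
    exact hx _
  · have h1 : Tendsto (fun k => inner ℝ v (a - (x ∘ φ) k)) atTop (𝓝 (inner ℝ v (a - y))) :=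
      tendsto_const_nhds.inner (tendsto_const_nhds.sub hy)
    have h2 : Tendsto (fun k => (1 + e) * inner ℝ v (a - p) + (t ∘ φ) k * (e * ‖v‖ ^ 2)) atTop
        (𝓝 ((1 + e) * inner ℝ v (a - p))) := by
      simpa using ((ht.comp hφ.tendsto_atTop).mul_const (e * ‖v‖ ^ 2)).const_add
        ((1 + e) * inner ℝ v (a - p))
    refine le_of_tendsto_of_tendsto' h1 h2 fun k => ?_
    simp only [Function.comp]
    set s := t (φ k)
    have hs : 0 < s := htp _
    have h3 := ha (a + s • v)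
    have h4 : infDist a X ^ 2 ≤ ‖a - x (φ k)‖ ^ 2 := by
      refine pow_le_pow_left₀ infDist_nonneg ?_ 2
      rw [← dist_eq_norm]; exact infDist_le_dist_of_mem (hxX _)
    rw [hx (φ k), dist_eq_norm] at h3
    have e1 : a + s • v - x (φ k) = s • v + (a - x (φ k)) := by abel
    have e2 : a + s • v - p = s • v + (a - p) := by abel
    rw [e1, e2, norm_add_sq_real, norm_add_sq_real, inner_smul_left, inner_smul_left, norm_smul,
      Real.norm_of_nonneg hs.le] at h3
    simp only [conj_trivial] at h3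
    have h5 : s * (2 * inner ℝ v (a - x (φ k))) ≤
        s * (2 * ((1 + e) * inner ℝ v (a - p)) + s * (e * ‖v‖ ^ 2)) := by nlinarith
    have h6 := le_of_mul_le_mul_left h5 hs
    have : 0 ≤ s * (e * ‖v‖ ^ 2) := by positivity
    linarith

end

theorem result (n : ℕ) (X : Set (EuclideanSpace ℝ (Fin n))) (hX : IsClosed X)
    (hne : X.Nonempty) (l : ℝ) (hl : 0 < l) (p : EuclideanSpace ℝ (Fin n))
    (hp : p ∈ convexHull ℝ X) (hd : l < infDist p X) :
    p ∉ X ∧ p ∈ ⋃ a ∈ medial X l, ball a (infDist a X) := by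
  refine ⟨fun h => by rw [infDist_zero_of_mem h] at hd; linarith, ?_⟩
  by_contra hcon
  obtain ⟨C, hC⟩ := bound hp
  have hpos : ∀ k : ℕ, (0 : ℝ) < 1 / 2 ^ k := fun k => by positivity
  choose a ha using fun k : ℕ => exists_max hC (hpos k)
  set δ := infDist p X ^ 2 - l ^ 2 with hδ
  have hδ0 : 0 < δ := by nlinarith
  have step : ∀ k : ℕ, δ ≤ 2 * (1 / 2 ^ k) * ‖a k - p‖ ^ 2 := by
    intro k
    set e : ℝ := 1 / 2 ^ k with he
    have he0 : 0 < e := hpos k
    have he1 : e ≤ 1 := by rw [he, div_le_one (by positivity)]; exact one_le_pow₀ (by norm_num)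
    have h0 := ha k p
    simp only [sub_self, norm_zero] at h0
    have hball : p ∈ ball (a k) (infDist (a k) X) := by
      rw [mem_ball, dist_comm, dist_eq_norm]
      refine lt_of_pow_lt_pow_left₀ 2 infDist_nonneg ?_
      nlinarith [sq_nonneg ‖a k - p‖]
    have hnm : a k ∉ medial X l := fun h => hcon (mem_biUnion h hball)
    obtain ⟨c, hc⟩ : ∃ c, near X (a k) ⊆ closedBall c l := by
      by_contra h
      refine hnm ⟨?_, h⟩
      by_contra h2
      rcases (not_nontrivial_iff.1 h2).eq_empty_or_singleton with h3 | ⟨c, h3⟩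
      · exact h ⟨p, by simp [h3]⟩
      · exact h ⟨c, by simp [h3, hl.le]⟩
    obtain ⟨x, hx, hv⟩ := first_order hX hne he0 (ha k) (a k - c)
    have h1 : ‖x - c‖ ≤ l := by rw [← dist_eq_norm]; exact hc hx
    have h2 : ‖a k - x‖ = infDist (a k) X := by rw [← dist_eq_norm]; exact hx.2
    have h3 : ‖x - c‖ ^ 2 ≤ l ^ 2 := pow_le_pow_left₀ (norm_nonneg _) h1 2
    have e1 : x - c = (a k - c) - (a k - x) := by abel
    rw [e1, norm_sub_sq_real, h2] at h3
    have h4 : 0 ≤ ‖(a k - c) - (1 + e) • (a k - p)‖ ^ 2 := sq_nonneg _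
    rw [norm_sub_sq_real, inner_smul_right, norm_smul, Real.norm_of_nonneg (by linarith),
      mul_pow] at h4
    have h5 : δ ≤ e * (1 + e) * ‖a k - p‖ ^ 2 := by nlinarith
    nlinarith [mul_nonneg he0.le (sq_nonneg ‖a k - p‖)]
  have grow : ∀ k : ℕ, (k : ℝ) * (δ / 4) ≤
      infDist (a k) X ^ 2 - (1 + 1 / 2 ^ k) * ‖a k - p‖ ^ 2 := by
    intro k
    induction k with
    | zero =>
      have h0 := ha 0 p
      simp only [sub_self, norm_zero] at h0
      have := sq_nonneg (infDist p X)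
      push_cast
      nlinarith
    | succ k ih =>
      have h0 := ha (k + 1) (a k)
      have h1 := step k
      have e : (1 : ℝ) / 2 ^ (k + 1) = 1 / 2 ^ k / 2 := by rw [pow_succ]; field_simp
      rw [e] at h0 ⊢
      push_cast
      nlinarith
  obtain ⟨k, hk⟩ := exists_nat_gt (C / (δ / 4))
  have h1 := grow k
  have h2 := hC (a k)
  rw [div_lt_iff₀ (by positivity)] at hk
  nlinarith [mul_nonneg (hpos k).le (sq_nonneg ‖a k - p‖)]

end Pool.Agent.Results.MP_15b8d6_gt.Reconstructible
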